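import Mathlib
import Pool.Agent.Helper56.Dac.Inst

/-!
# MP_dac99f_nt: a q-supercongruence with factors `[4k+1]` and `q^{k^2}`

We settle Q1. For all integers `m ≥ 1` and all odd `n ≥ 3` the congruence
`S_{m,n}(q) ≡ (-1)^{(n-1)/2} q^{(n-1)^2/4} [n] c_m (mod Φ_n(q)^2)` holds.
In the degenerate case `n = 1` (modulus `(q-1)^2`) it holds only for `m = 1`.
-/

namespace Pool.Agent.Results.MP_dac99f_nt.QSuper

open Finset Polynomial

noncomputable section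

/-- The shifted factorial `(a; b)_k = (1 - a)(1 - a b) ⋯ (1 - a b^{k-1})` in `ℚ(q)`. -/
def qPoch (a b : RatFunc ℚ) (k : ℕ) : RatFunc ℚ := ∏ i ∈ range k, (1 - a * b ^ i)

/-- The `q`-integer `[M] = (1 - q^M)/(1 - q)` in `ℚ(q)`, where `q = RatFunc.X`. -/
def qInt (M : ℕ) : RatFunc ℚ := (1 - RatFunc.X ^ M) / (1 - RatFunc.X)

/-- `S_{m,n}(q) = ∑_{k=0}^{mn-1} (-1)^k [4k+1] q^{k^2} (q;q^2)_k^3 / (q^2;q^2)_k^3`. -/
def S (m n : ℕ) : RatFunc ℚ :=
  ∑ k ∈ range (m * n), (-1) ^ k * qInt (4 * k + 1) * RatFunc.X ^ (k ^ 2) *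
    (qPoch RatFunc.X (RatFunc.X ^ 2) k ^ 3 / qPoch (RatFunc.X ^ 2) (RatFunc.X ^ 2) k ^ 3)

/-- `c_m = ∑_{k=0}^{m-1} (-1)^k (4k+1) (1/2)_k^3 / k!^3`, with `(1/2)_k` the rising factorial. -/
def c (m : ℕ) : ℚ :=
  ∑ k ∈ range m, (-1) ^ k * (4 * k + 1) *
    ((ascPochhammer ℚ k).eval (1 / 2) ^ 3 / (k.factorial : ℚ) ^ 3)

/-- Congruence of rational functions modulo `Φ_n(q)^2`: `A - B = P/Q` with `Q` coprime to `Φ_n`
and `Φ_n^2 ∣ P`. -/
def CongPhiSq (n : ℕ) (A B : RatFunc ℚ) : Prop :=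
  ∃ P Q : ℚ[X], IsCoprime Q (cyclotomic n ℚ) ∧ (cyclotomic n ℚ) ^ 2 ∣ P ∧
    A - B = algebraMap ℚ[X] (RatFunc ℚ) P / algebraMap ℚ[X] (RatFunc ℚ) Q

open Pool.Agent.Helper56.Dac in
lemma S_eq (m n : ℕ) : S m n = ∑ k ∈ range (n * m), tm (RatFunc.X : RatFunc ℚ) k := by
  unfold S
  rw [mul_comm m n]
  apply sum_congr rfl
  intro k _
  unfold tm B qInt qPoch
  have h1 : ∏ i ∈ range k, (1 - RatFunc.X * ((RatFunc.X : RatFunc ℚ) ^ 2) ^ i) =
      ∏ i ∈ range k, (1 - RatFunc.X ^ (2 * i + 1)) := by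
    apply prod_congr rfl
    intro i _
    ring
  have h2 : ∏ i ∈ range k, (1 - RatFunc.X ^ 2 * ((RatFunc.X : RatFunc ℚ) ^ 2) ^ i) =
      ∏ i ∈ range k, (1 - RatFunc.X ^ (2 * i + 2)) := by
    apply prod_congr rfl
    intro i _
    ring
  rw [h1, h2, div_pow]

open Pool.Agent.Helper56.Dac in
lemma bet_eq (k : ℕ) : bet (RatFunc ℚ) k =
    RatFunc.C ((ascPochhammer ℚ k).eval (1 / 2) / (k.factorial : ℚ)) := by
  induction k with
  | zero => simp [bet]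
  | succ k ih =>
    have h1 : bet (RatFunc ℚ) (k + 1) = bet (RatFunc ℚ) k *
        RatFunc.C (((2 * k + 1 : ℕ) : ℚ) / ((2 * k + 2 : ℕ) : ℚ)) := by
      rw [bet, prod_range_succ, ← bet, map_div₀, map_natCast, map_natCast]
    rw [h1, ih, ← map_mul]
    congr 1
    rw [ascPochhammer_succ_eval, Nat.factorial_succ]
    push_cast
    have : (k.factorial : ℚ) ≠ 0 := by exact_mod_cast k.factorial_ne_zero
    have h3 : ((k : ℚ) + 1) ≠ 0 := by positivity
    field_simp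
    ring

open Pool.Agent.Helper56.Dac in
lemma c_eq (m : ℕ) : RatFunc.C (c m) =
    ∑ j ∈ range m, (-1) ^ j * (4 * j + 1) * (bet (RatFunc ℚ) j) ^ 3 := by
  unfold c
  rw [map_sum]
  apply sum_congr rfl
  intro k _
  rw [bet_eq, ← map_pow, div_pow]
  simp only [map_mul, map_pow, map_neg, map_one, map_add, map_natCast]
  congr 3
  congr 1
  exact map_ofNat (RatFunc.C (K := ℚ)) 4

/-- **Answer to Q1.** Let `m ≥ 1` and let `n` be odd. The congruence
`S_{m,n}(q) ≡ (-1)^{(n-1)/2} q^{(n-1)^2/4} [n] c_m (mod Φ_n(q)^2)` holds if and only if `n ≥ 3` or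
`m = 1`. -/
theorem result (m n : ℕ) (hm : 1 ≤ m) (hn : Odd n) :
    CongPhiSq n (S m n)
      ((-1) ^ ((n - 1) / 2) * RatFunc.X ^ ((n - 1) ^ 2 / 4) * qInt n * RatFunc.C (c m)) ↔
    (3 ≤ n ∨ m = 1) := by
  obtain ⟨N, rfl⟩ := hn
  unfold CongPhiSq
  rw [← Pool.Agent.Helper56.Dac.cg_iff _ (by omega), S_eq, c_eq]
  have e1 : (2 * N + 1 - 1) / 2 = N := by omega
  have e2 : (2 * N + 1 - 1) ^ 2 / 4 = N ^ 2 := by
    rw [Nat.add_sub_cancel, mul_pow]
    norm_num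
  rw [e1, e2]
  rcases Nat.eq_zero_or_pos N with rfl | hN
  · have h1 := Pool.Agent.Helper56.Dac.good1_inst.total m hm
    have hX : (1 : RatFunc ℚ) - RatFunc.X ≠ 0 := by
      have := Pool.Agent.Helper56.Dac.good1_inst.hq1
      intro h
      apply this
      linear_combination -h
    have e3 : qInt (2 * 0 + 1) = 1 := by
      unfold qInt
      rw [mul_zero, zero_add, pow_one, div_self hX]
    simp only [mul_zero, zero_add, one_mul, pow_zero, pow_one] at h1 e3 ⊢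
    rw [e3]
    simp only [ne_eq, OfNat.ofNat_ne_zero, not_false_eq_true, zero_pow, pow_zero, one_mul]
    rw [h1]
    omega
  · have h1 := (Pool.Agent.Helper56.Dac.good_inst N hN).total m
    constructor
    · intro _
      left
      omega
    · intro _
      exact h1

end

end Pool.Agent.Results.MP_dac99f_nt.QSuper
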